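import Pool.Agent.H96.AL.Targets1

/-!
AL module DS (MP_c9ef16_gt): directional derivatives of semiconcave functions.
-/

open Topology Set Filter Real

namespace Pool.Agent.H34.AL

open Pool.Agent.H96.AL

theorem pf_DS : T_DS := by
  intro X _ Λ g hg z y η hη ε hε
  have hl0 : 0 ≤ dist z y := dist_nonneg
  obtain ⟨h0, h1, h2⟩ := hη
  have hden : 0 < |Λ| * dist z y ^ 2 + 1 := by positivity
  have hev : ∀ᶠ s in 𝓝[>] (0 : ℝ), s ∈ Ioo (0 : ℝ) (min 1 (ε / (|Λ| * dist z y ^ 2 + 1))) :=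
    Ioo_mem_nhdsGT (lt_min one_pos (div_pos hε hden))
  filter_upwards [hev] with s hs
  obtain ⟨hs0, hs1⟩ := hs
  have hs1' : s < 1 := lt_of_lt_of_le hs1 (min_le_left _ _)
  have hs2 : s < ε / (|Λ| * dist z y ^ 2 + 1) := lt_of_lt_of_le hs1 (min_le_right _ _)
  rw [lt_div_iff₀ hden] at hs2
  have hsl0 : 0 ≤ s * dist z y := mul_nonneg hs0.le hl0
  have hsl1 : s * dist z y ≤ dist z y := mul_le_of_le_one_left hl0 hs1'.le
  have ha : dist z (η (s * dist z y)) = s * dist z y := by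
    have := h2 0 ⟨le_refl _, hl0⟩ (s * dist z y) ⟨hsl0, hsl1⟩
    rw [h0] at this
    rw [this, zero_sub, abs_neg, abs_of_nonneg hsl0]
  have hb : dist (η (s * dist z y)) y = (1 - s) * dist z y := by
    have := h2 (s * dist z y) ⟨hsl0, hsl1⟩ (dist z y) ⟨hl0, le_refl _⟩
    rw [h1] at this
    rw [this, abs_sub_comm, abs_of_nonneg (sub_nonneg.2 hsl1)]
    ring
  have hc := hg z y (η (s * dist z y)) s ⟨hs0.le, hs1'.le⟩ ha hb
  have hd : 0 ≤ s * (Λ / 2 * (s * dist z y ^ 2) + ε) := by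
    apply mul_nonneg hs0.le
    have h3 : -(|Λ| / 2 * (s * dist z y ^ 2)) ≤ Λ / 2 * (s * dist z y ^ 2) := by
      have h4 : 0 ≤ s * dist z y ^ 2 := mul_nonneg hs0.le (sq_nonneg _)
      have h5 := mul_le_mul_of_nonneg_right (neg_abs_le Λ) h4
      linarith
    have h6 : 0 ≤ |Λ| * (s * dist z y ^ 2) :=
      mul_nonneg (abs_nonneg _) (mul_nonneg hs0.le (sq_nonneg _))
    have h7 : s * (|Λ| * dist z y ^ 2 + 1) = |Λ| * (s * dist z y ^ 2) + s := by ring
    rw [h7] at hs2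
    linarith
  have he : s * (Λ / 2 * (s * dist z y ^ 2) + ε) = ((1 - s) * g z + s * g y -
      Λ / 2 * s * (1 - s) * dist z y ^ 2) - (g z + s * (g y - g z - Λ / 2 * dist z y ^ 2 - ε)) := by
    ring
  linarith

end Pool.Agent.H34.AL
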